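import Pool.Agent.Helper84.PL.Goals

set_option autoImplicit false

namespace Pool.Agent.Helper61.PL

open Pool.Agent.Helper84.PL

theorem ht : G_HT := by
  classical
  intro V _ _ χ c hc
  let P : V → ℕ → Prop := fun v n => ∃ u, Mo χ u v n
  have hP0 : ∀ v, P v 0 := fun v => ⟨v, Mo.refl v⟩
  let h : V → ℕ := fun v => Nat.findGreatest (P v) c
  have hspec : ∀ v, P v (h v) := fun v => Nat.findGreatest_spec (Nat.zero_le c) (hP0 v)
  refine ⟨h, ?_, ?_⟩
  · intro v
    obtain ⟨u, hu⟩ := hspec v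
    exact hc u v _ hu
  · intro u w huw hχ
    obtain ⟨t, ht⟩ := hspec u
    have h1 : P w (h u + 1) := ⟨t, Mo.step t u w _ ht huw hχ⟩
    obtain ⟨s, hs⟩ := h1
    have h2 := hc s w _ hs
    exact Nat.le_findGreatest h2.le ⟨s, hs⟩

end Pool.Agent.Helper61.PL
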