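import Pool.Agent.Helper84.PL.Goals

set_option autoImplicit false

namespace Pool.Agent.Helper61.PL

open Pool.Agent.Helper84.PL

theorem lin (hMT : G_MT) : G_LIN := by
  intro V _ _ R χ τ M hB hM
  have key : ∀ (a b r s : ℕ), r < M → s < M → a < b → M * a + r < M * b + s := by
    intro a b r s hr hs hab
    have : M * (a + 1) ≤ M * b := Nat.mul_le_mul_left M hab
    rw [Nat.mul_add, Nat.mul_one] at this
    omega
  have hr : ∀ v, (if χ v = true then R.lam v else R.rho v) < M := by
    intro v
    split_ifs
    · exact (hM v).1
    · exact (hM v).2
  constructor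
  · intro u v huv
    simp only [sig] at huv
    have hτ : τ u = τ v := by
      rcases lt_trichotomy (τ u) (τ v) with h | h | h
      · have := key _ _ _ _ (hr u) (hr v) h
        omega
      · exact h
      · have := key _ _ _ _ (hr v) (hr u) h
        omega
    have hχ := hB.col u v hτ
    rw [hτ, hχ] at huv
    split_ifs at huv with h1
    · exact R.lam_inj (by omega)
    · exact R.rho_inj (by omega)
  · intro u v huv
    have h1 := (hMT V R χ τ hB).1 u v huv.le
    have h2 := (R.lt_iff u v).mp huv
    simp only [sig]
    rcases lt_or_eq_of_le h1 with h | h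
    · exact key _ _ _ _ (hr u) (hr v) h
    · have hχ := hB.col u v h
      rw [h, hχ]
      split_ifs
      · omega
      · omega

end Pool.Agent.Helper61.PL
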