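import Pool.Agent.Helper82.PL.Defs

/-!
Truncation by classical super- and subsolutions (packets TruncUp, TruncDown) for the
4-Laplacian in the plane.
-/

set_option autoImplicit false

open MeasureTheory Set Filter Topology

namespace Pool.Agent.Helper61.PL

open Pool.Agent.Helper82.PL

lemma locLip_of_c1 {S : Set E2} (hS : IsOpen S) {f : E2 → ℝ} (hf : ContDiffOn ℝ 1 f S) :
    LocallyLipschitzOn S f := by
  intro x hx
  have h1 : ContDiffAt ℝ 1 f x := hf.contDiffAt (hS.mem_nhds hx)
  obtain ⟨K, t, ht, hK⟩ := h1.exists_lipschitzOnWith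
  exact ⟨K, t, mem_nhdsWithin_of_mem_nhds ht, hK⟩

lemma locLip_comp {S : Set E2} {f : E2 → ℝ} {g : ℝ → ℝ} (hg : LocallyLipschitz g)
    (hf : LocallyLipschitzOn S f) : LocallyLipschitzOn S (fun x => g (f x)) := by
  intro x hx
  obtain ⟨K, t, ht, hK⟩ := hf hx
  obtain ⟨K', t', ht', hK'⟩ := hg (f x)
  have hc : ContinuousWithinAt f S x := hf.continuousOn x hx
  refine ⟨K' * K, t ∩ f ⁻¹' t', inter_mem ht (hc ht'), ?_⟩
  exact hK'.comp (hK.mono inter_subset_left) (fun y hy => hy.2)

lemma locLip_add {S : Set E2} {f g : E2 → ℝ} (hf : LocallyLipschitzOn S f)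
    (hg : LocallyLipschitzOn S g) : LocallyLipschitzOn S (fun x => f x + g x) := hf.add hg

lemma locLip_sub {S : Set E2} {f g : E2 → ℝ} (hf : LocallyLipschitzOn S f)
    (hg : LocallyLipschitzOn S g) : LocallyLipschitzOn S (fun x => f x - g x) := hf.sub hg

lemma locLip_of_lip {S : Set E2} {f : E2 → ℝ} (hf : ∃ K : NNReal, LipschitzWith K f) :
    LocallyLipschitzOn S f := by
  obtain ⟨K, hK⟩ := hf
  exact hK.locallyLipschitz.locallyLipschitzOn

lemma locLip_exp4 : LocallyLipschitz (fun y : ℝ => Real.exp (4 * y)) := by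
  apply ContDiff.locallyLipschitz (𝕂 := ℝ)
  exact Real.contDiff_exp.comp (contDiff_const.mul contDiff_id)

/-- off the set where they differ, two ordered Lipschitz functions have the same gradient a.e. -/
lemma ae_grad_eq {w w' : E2 → ℝ} (hw : ∃ K : NNReal, LipschitzWith K w)
    (hw' : ∃ K : NNReal, LipschitzWith K w')
    (hmon : (∀ x, w' x ≤ w x) ∨ (∀ x, w x ≤ w' x)) :
    ∀ᵐ x : E2, w' x = w x → gradient w' x = gradient w x := by
  obtain ⟨K, hK⟩ := hw
  obtain ⟨K', hK'⟩ := hw'
  filter_upwards [hK.ae_differentiableAt (μ := volume), hK'.ae_differentiableAt (μ := volume)]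
    with x h1 h2 h
  have h3 : fderiv ℝ (fun y => w y - w' y) x = 0 := by
    rcases hmon with hm | hm
    · have : IsLocalMin (fun y => w y - w' y) x := by
        refine Filter.Eventually.of_forall (fun y => ?_)
        have := hm y
        simp only [h, sub_self]
        linarith
      exact this.fderiv_eq_zero
    · have : IsLocalMax (fun y => w y - w' y) x := by
        refine Filter.Eventually.of_forall (fun y => ?_)
        have := hm y
        simp only [h, sub_self]
        linarith
      exact this.fderiv_eq_zero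
  have h4 : fderiv ℝ (fun y => w y - w' y) x = fderiv ℝ w x - fderiv ℝ w' x :=
    fderiv_sub h1 h2
  rw [h4, sub_eq_zero] at h3
  simp only [gradient, h3]

lemma ae_grad_zero {z : E2 → ℝ} (hz : ∃ K : NNReal, LipschitzWith K z)
    (hmon : (∀ x, 0 ≤ z x) ∨ (∀ x, z x ≤ 0)) :
    ∀ᵐ x : E2, z x = 0 → gradient z x = 0 := by
  have h := ae_grad_eq (w := z) (w' := fun _ => 0) hz ⟨0, LipschitzWith.const 0⟩ hmon
  filter_upwards [h] with x hx h0
  have := hx h0.symm
  rw [← this]
  simp [gradient]

/-- the pointwise inequality -/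
lemma young4 (a c : E2) : 4 * ‖c‖ ^ 2 * inner ℝ c a - 3 * ‖c‖ ^ 4 ≤ ‖a‖ ^ 4 := by
  have h1 : inner ℝ c a ≤ ‖c‖ * ‖a‖ := real_inner_le_norm c a
  have h2 : 0 ≤ ‖c‖ := norm_nonneg c
  have h3 : 0 ≤ ‖a‖ := norm_nonneg a
  have h4 : 4 * ‖c‖ ^ 2 * inner ℝ c a ≤ 4 * ‖c‖ ^ 2 * (‖c‖ * ‖a‖) := by
    apply mul_le_mul_of_nonneg_left h1
    positivity
  have h5 : 0 ≤ (‖a‖ - ‖c‖) ^ 2 * (‖a‖ ^ 2 + 2 * ‖a‖ * ‖c‖ + 3 * ‖c‖ ^ 2) := by positivity
  nlinarith [h4, h5]


lemma grad_zero_of_notMem {z : E2 → ℝ} {x : E2} (hx : x ∉ tsupport z) : gradient z x = 0 := by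
  have h1 : z =ᶠ[𝓝 x] fun _ => 0 := notMem_tsupport_iff_eventuallyEq.mp hx
  have h2 : fderiv ℝ z x = fderiv ℝ (fun _ : E2 => (0 : ℝ)) x := h1.fderiv_eq
  simp only [gradient, h2]
  simp

/-- the gradient of the test function on the contact set -/
lemma grad_zeta {b0 w β : E2 → ℝ} {x : E2} (h0 : DifferentiableAt ℝ b0 x)
    (hw : DifferentiableAt ℝ w x) (hβ : DifferentiableAt ℝ β x) {z : E2 → ℝ}
    (hz : z =ᶠ[𝓝 x] fun y => Real.exp (4 * (b0 y + w y)) - Real.exp (4 * β y)) :
    gradient z x = (4 * Real.exp (4 * (b0 x + w x))) • (gradient b0 x + gradient w x) -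
      (4 * Real.exp (4 * β x)) • gradient β x := by
  have h1 : HasFDerivAt (fun y => Real.exp (4 * (b0 y + w y)))
      (Real.exp (4 * (b0 x + w x)) • ((4 : ℝ) • (fderiv ℝ b0 x + fderiv ℝ w x))) x :=
    ((h0.hasFDerivAt.add hw.hasFDerivAt).const_mul 4).exp
  have h2 : HasFDerivAt (fun y => Real.exp (4 * β y))
      (Real.exp (4 * β x) • ((4 : ℝ) • fderiv ℝ β x)) x :=
    (hβ.hasFDerivAt.const_mul 4).exp
  have h3 := (h1.sub h2).congr_of_eventuallyEq hz
  have h4 := h3.fderiv
  simp only [gradient, h4, map_sub, map_add, map_smul, smul_smul]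
  congr 2 <;> ring_nf

/-- the core comparison -/
theorem core (hI : stmtIBP) (hE : stmtExt) (hInt : stmtInt) {b0 V : E2 → ℝ} {C0 : ℝ}
    (hB : Base b0 V C0) {S : Set E2} (hS : IsOpen S) (hSD : S ⊆ D) {β : E2 → ℝ}
    (hβ : ContDiffOn ℝ 1 β S) (hF : ContDiffOn ℝ 1 (flux β) S) {w w' : E2 → ℝ}
    (hw : IsAdm w) (hw' : IsAdm w') {K : Set E2} (hK : IsCompact K) (hKS : K ⊆ S)
    (hoff : ∀ x, x ∉ K → w' x = w x)
    (hon : ∀ x, w' x ≠ w x → w' x = β x - b0 x)
    (hmon : (∀ x, w' x ≤ w x) ∨ (∀ x, w x ≤ w' x))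
    (hsign : ∀ x ∈ S, 0 ≤ (V x - LL β x) *
      (Real.exp (4 * (b0 x + w x)) - Real.exp (4 * (b0 x + w' x)))) :
    J b0 V w' ≤ J b0 V w := by
  have hwc : Continuous w := by
    obtain ⟨L, hL⟩ := hw.1
    exact hL.continuous
  have hwc' : Continuous w' := by
    obtain ⟨L, hL⟩ := hw'.1
    exact hL.continuous
  have hPo : IsOpen {x | w' x ≠ w x} := isOpen_ne_fun hwc' hwc
  have hPK : {x | w' x ≠ w x} ⊆ K := by
    intro x hx
    by_contra h
    exact hx (hoff x h)
  -- the test function
  set ζ : E2 → ℝ := fun x => Real.exp (4 * (b0 x + w x)) - Real.exp (4 * (b0 x + w' x)) with hζ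
  have hζ0 : ∀ x, x ∉ K → ζ x = 0 := by
    intro x hx
    simp only [hζ, hoff x hx, sub_self]
  have hb0L : LocallyLipschitzOn S b0 := (locLip_of_c1 (by
    have : D = {x : E2 | 1 < ‖x‖} := rfl
    rw [this]
    exact isOpen_lt continuous_const continuous_norm) hB.c1).mono hSD
  have hζL : ∃ L : NNReal, LipschitzWith L ζ := by
    apply hE S K ζ hS hK hKS hζ0
    apply locLip_sub
    · exact locLip_comp (g := fun y => Real.exp (4 * y)) locLip_exp4
        (locLip_add hb0L (locLip_of_lip hw.1))
    · exact locLip_comp (g := fun y => Real.exp (4 * y)) locLip_exp4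
        (locLip_add hb0L (locLip_of_lip hw'.1))
  have hζc : Continuous ζ := by
    obtain ⟨L, hL⟩ := hζL
    exact hL.continuous
  have hζs : HasCompactSupport ζ := HasCompactSupport.intro hK hζ0
  have hζK : tsupport ζ ⊆ K := by
    apply closure_minimal _ hK.isClosed
    intro x hx
    by_contra h
    exact hx (hζ0 x h)
  obtain ⟨i1, i2, ibp⟩ := hI S hS (flux β) hF ζ hζL hζs (hζK.trans hKS)
  obtain ⟨_, j1, j2⟩ := hInt b0 V C0 hB w hw
  obtain ⟨_, k1, k2⟩ := hInt b0 V C0 hB w' hw'
  -- sign of zeta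
  have hζm : (∀ x, 0 ≤ ζ x) ∨ (∀ x, ζ x ≤ 0) := by
    rcases hmon with hm | hm
    · left
      intro x
      have : Real.exp (4 * (b0 x + w' x)) ≤ Real.exp (4 * (b0 x + w x)) := by
        apply Real.exp_le_exp.mpr
        linarith [hm x]
      simp only [hζ]
      linarith
    · right
      intro x
      have : Real.exp (4 * (b0 x + w x)) ≤ Real.exp (4 * (b0 x + w' x)) := by
        apply Real.exp_le_exp.mpr
        linarith [hm x]
      simp only [hζ]
      linarith
  -- the pointwise inequality
  have hpt : ∀ᵐ x : E2, inner ℝ (flux β x) (gradient ζ x) +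
      (V x - 3 * ‖gradient β x‖ ^ 4) * ζ x ≤
      Real.exp (4 * (b0 x + w x)) * (‖gradient b0 x + gradient w x‖ ^ 4 + V x) -
      Real.exp (4 * (b0 x + w' x)) * (‖gradient b0 x + gradient w' x‖ ^ 4 + V x) := by
    obtain ⟨L, hL⟩ := hw.1
    filter_upwards [ae_grad_eq hw.1 hw'.1 hmon, ae_grad_zero hζL hζm,
      hL.ae_differentiableAt (μ := volume)] with x h1 h2 h3
    by_cases hx : w' x = w x
    · have e1 : ζ x = 0 := by simp only [hζ, hx, sub_self]
      rw [h2 e1, h1 hx, e1, hx]
      simp
    · have hxS : x ∈ S := hKS (hPK hx)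
      have hxD : x ∈ D := hSD hxS
      have d0 : DifferentiableAt ℝ b0 x := by
        refine (hB.c1.contDiffAt ?_).differentiableAt (by norm_num)
        have : D = {x : E2 | 1 < ‖x‖} := rfl
        rw [this]
        exact (isOpen_lt continuous_const continuous_norm).mem_nhds hxD
      have dβ : DifferentiableAt ℝ β x :=
        (hβ.contDiffAt (hS.mem_nhds hxS)).differentiableAt (by norm_num)
      have ew' : w' =ᶠ[𝓝 x] fun y => β y - b0 y := by
        filter_upwards [hPo.mem_nhds hx] with y hy
        exact hon y hy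
      have ez : ζ =ᶠ[𝓝 x] fun y => Real.exp (4 * (b0 y + w y)) - Real.exp (4 * β y) := by
        filter_upwards [ew'] with y hy
        simp only [hζ, hy]
        congr 2
        ring_nf
      have gz := grad_zeta d0 h3 dβ ez
      have gw' : gradient b0 x + gradient w' x = gradient β x := by
        have h5 : fderiv ℝ w' x = fderiv ℝ β x - fderiv ℝ b0 x := by
          rw [ew'.fderiv_eq]
          exact fderiv_sub dβ d0
        simp only [gradient, h5, map_sub]
        abel
      have ezx : ζ x = Real.exp (4 * (b0 x + w x)) - Real.exp (4 * β x) := ez.self_of_nhds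
      have ewx : b0 x + w' x = β x := by rw [ew'.self_of_nhds]; ring
      rw [gw', gz, ezx, ewx]
      simp only [flux, inner_sub_right, inner_smul_left, inner_smul_right,
        real_inner_self_eq_norm_sq, RCLike.conj_to_real]
      have hy := young4 (gradient b0 x + gradient w x) (gradient β x)
      have he : 0 < Real.exp (4 * (b0 x + w x)) := Real.exp_pos _
      have hy2 := mul_le_mul_of_nonneg_left hy he.le
      nlinarith [hy2]
  -- integrability of the lower order term
  have hgc : ContinuousOn (fun x => gradient β x) S := by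
    have h5 : ContinuousOn (fderiv ℝ β) S := hβ.continuousOn_fderiv_of_isOpen hS le_rfl
    exact (InnerProductSpace.toDual ℝ E2).symm.continuous.comp_continuousOn h5
  have iV : Integrable (fun x => V x * ζ x) := by
    have h5 : Integrable ζ := hζc.integrable_of_hasCompactSupport hζs
    refine Integrable.mono' (h5.norm.const_mul |C0|)
      (hB.vm.aestronglyMeasurable.mul hζc.aestronglyMeasurable) ?_
    filter_upwards with x
    by_cases hx : x ∈ K
    · have hxD : x ∈ D := hSD (hKS hx)
      have h6 := hB.vb x hxD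
      have h7 : (1 : ℝ) < ‖x‖ := hxD
      have h8 : C0 / ‖x‖ ^ 4 ≤ |C0| := by
        rw [div_le_iff₀ (by positivity)]
        have h9 : (1 : ℝ) ≤ ‖x‖ ^ 4 := one_le_pow₀ h7.le
        calc C0 ≤ |C0| := le_abs_self C0
          _ = |C0| * 1 := by ring
          _ ≤ |C0| * ‖x‖ ^ 4 := mul_le_mul_of_nonneg_left h9 (abs_nonneg _)
      rw [norm_mul]
      apply mul_le_mul_of_nonneg_right _ (norm_nonneg _)
      exact h6.trans h8
    · rw [hζ0 x hx]
      simp
  have iG : Integrable (fun x => ‖gradient β x‖ ^ 4 * ζ x) := by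
    have h5 : ContinuousOn (fun x => ‖gradient β x‖ ^ 4 * ζ x) K :=
      ((hgc.mono hKS).norm.pow 4).mul hζc.continuousOn
    have h6 : IntegrableOn (fun x => ‖gradient β x‖ ^ 4 * ζ x) K := h5.integrableOn_compact hK
    apply h6.integrable_of_forall_notMem_eq_zero
    intro x hx
    rw [hζ0 x hx, mul_zero]
  have iL : Integrable (fun x => (V x - 3 * ‖gradient β x‖ ^ 4) * ζ x) := by
    have := iV.sub (iG.const_mul 3)
    refine this.congr (Filter.Eventually.of_forall fun x => ?_)
    simp only [Pi.sub_apply]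
    ring
  -- integrate
  have hJ : J b0 V w - J b0 V w' =
      ∫ x in D, (Real.exp (4 * (b0 x + w x)) * (‖gradient b0 x + gradient w x‖ ^ 4 + V x) -
      Real.exp (4 * (b0 x + w' x)) * (‖gradient b0 x + gradient w' x‖ ^ 4 + V x)) := by
    unfold J
    rw [integral_sub]
    · refine (j1.add j2).congr (Filter.Eventually.of_forall fun x => ?_)
      simp only [Pi.add_apply]
      ring
    · refine (k1.add k2).congr (Filter.Eventually.of_forall fun x => ?_)
      simp only [Pi.add_apply]
      ring
  have hle : ∫ x in D, (inner ℝ (flux β x) (gradient ζ x) +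
      (V x - 3 * ‖gradient β x‖ ^ 4) * ζ x) ≤ J b0 V w - J b0 V w' := by
    rw [hJ]
    apply integral_mono_ae
    · exact (i1.add iL).integrableOn
    · apply Integrable.sub
      · refine (j1.add j2).congr (Filter.Eventually.of_forall fun x => ?_)
        simp only [Pi.add_apply]
        ring
      · refine (k1.add k2).congr (Filter.Eventually.of_forall fun x => ?_)
        simp only [Pi.add_apply]
        ring
    · exact ae_restrict_of_ae hpt
  have hfull : ∫ x in D, (inner ℝ (flux β x) (gradient ζ x) +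
      (V x - 3 * ‖gradient β x‖ ^ 4) * ζ x) =
      ∫ x, (inner ℝ (flux β x) (gradient ζ x) + (V x - 3 * ‖gradient β x‖ ^ 4) * ζ x) := by
    apply setIntegral_eq_integral_of_forall_compl_eq_zero
    intro x hx
    have hxK : x ∉ K := fun h => hx (hSD (hKS h))
    have hxt : x ∉ tsupport ζ := fun h => hxK (hζK h)
    rw [grad_zero_of_notMem hxt, hζ0 x hxK]
    simp
  have hval : ∫ x, (inner ℝ (flux β x) (gradient ζ x) +
      (V x - 3 * ‖gradient β x‖ ^ 4) * ζ x) = ∫ x, (V x - LL β x) * ζ x := by
    have i2n : Integrable (fun x => -(dv (flux β) x * ζ x)) := i2.neg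
    rw [integral_add i1 iL, ibp, ← integral_neg, ← integral_add i2n iL]
    congr 1
    ext x
    simp only [LL]
    ring
  have hpos : 0 ≤ ∫ x, (V x - LL β x) * ζ x := by
    apply integral_nonneg
    intro x
    by_cases hx : x ∈ K
    · exact hsign x (hKS hx)
    · simp only [hζ0 x hx, mul_zero, Pi.zero_apply, le_refl]
  linarith [hle, hfull, hval, hpos]


lemma locLip_congr {S : Set E2} {f g : E2 → ℝ} (h : ∀ x ∈ S, f x = g x)
    (hg : LocallyLipschitzOn S g) : LocallyLipschitzOn S f := by
  intro x hx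
  obtain ⟨K, t, ht, hK⟩ := hg hx
  refine ⟨K, t ∩ S, inter_mem ht self_mem_nhdsWithin, ?_⟩
  intro a ha b hb
  rw [h a ha.2, h b hb.2]
  exact hK ha.1 hb.1

lemma adm_sub {w f : E2 → ℝ} (hw : IsAdm w) (hf : ∃ L : NNReal, LipschitzWith L f) {K : Set E2}
    (hK : IsCompact K) (hKD : K ⊆ D) (h0 : ∀ x, x ∉ K → f x = 0) :
    IsAdm (fun x => w x - f x) := by
  obtain ⟨⟨L1, h1⟩, h2, h3⟩ := hw
  obtain ⟨L2, h4⟩ := hf
  have hz : ∀ x, x ∉ tsupport w ∪ K → w x - f x = 0 := by
    intro x hx
    simp only [mem_union, not_or] at hx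
    rw [h0 x hx.2, image_eq_zero_of_notMem_tsupport hx.1, sub_zero]
  have hc : IsCompact (tsupport w ∪ K) := IsCompact.union h2 hK
  refine ⟨⟨L1 + L2, h1.sub h4⟩, HasCompactSupport.intro hc hz, ?_⟩
  refine subset_trans (closure_minimal ?_ hc.isClosed) (union_subset h3 hKD)
  intro x hx
  by_contra h
  exact hx (hz x h)

lemma isOpen_D : IsOpen D := by
  have : D = {x : E2 | 1 < ‖x‖} := rfl
  rw [this]
  exact isOpen_lt continuous_const continuous_norm

/-- truncation from above -/
theorem truncUp_ok (hI : stmtIBP) (hE : stmtExt) (hInt : stmtInt) : stmtTruncUp := by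
  classical
  intro b0 V C0 hB S hS hSD β hβ hF hsup w hw K hK hKS hout
  set f : E2 → ℝ := fun x => if x ∈ S then max 0 (b0 x + w x - β x) else 0 with hf
  have hf0 : ∀ x, x ∉ K → f x = 0 := by
    intro x hx
    by_cases hxS : x ∈ S
    · simp only [hf, if_pos hxS]
      exact max_eq_left (by linarith [hout x hxS hx])
    · simp only [hf, if_neg hxS]
  have hb0L : LocallyLipschitzOn S b0 := (locLip_of_c1 isOpen_D hB.c1).mono hSD
  have hfL : ∃ L : NNReal, LipschitzWith L f := by
    apply hE S K f hS hK hKS hf0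
    refine locLip_congr (g := fun x => max 0 (b0 x + w x - β x)) ?_ ?_
    · intro x hx
      simp only [hf, if_pos hx]
    · refine locLip_comp (g := fun y => max 0 y) ?_ ?_
      · exact (LipschitzWith.id.const_max 0).locallyLipschitz
      · exact locLip_sub (locLip_add hb0L (locLip_of_lip hw.1)) (locLip_of_c1 hS hβ)
  have hw' : IsAdm (fun x => w x - f x) := adm_sub hw hfL hK (hKS.trans hSD) hf0
  have hfn : ∀ x, 0 ≤ f x := by
    intro x
    by_cases hxS : x ∈ S
    · simp only [hf, if_pos hxS]
      exact le_max_left _ _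
    · simp only [hf, if_neg hxS, le_refl]
  refine ⟨fun x => w x - f x, hw', ?_, ?_, ?_⟩
  · refine core hI hE hInt hB hS hSD hβ hF hw hw' hK hKS ?_ ?_ (Or.inl ?_) ?_
    · intro x hx
      simp only [hf0 x hx, sub_zero]
    · intro x hx
      have hfx : f x ≠ 0 := by
        intro h
        apply hx
        simp only [h, sub_zero]
      by_cases hxS : x ∈ S
      · simp only [hf, if_pos hxS] at hfx ⊢
        rcases max_choice 0 (b0 x + w x - β x) with h | h
        · exact absurd h hfx
        · rw [h]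
          ring
      · simp only [hf, if_neg hxS, ne_eq, not_true_eq_false] at hfx
    · intro x
      linarith [hfn x]
    · intro x hx
      apply mul_nonneg
      · linarith [hsup x hx]
      · have : Real.exp (4 * (b0 x + (w x - f x))) ≤ Real.exp (4 * (b0 x + w x)) := by
          apply Real.exp_le_exp.mpr
          linarith [hfn x]
        linarith
  · intro x hx
    simp only [hf, if_pos hx]
    rcases le_total 0 (b0 x + w x - β x) with h | h
    · rw [max_eq_right h, min_eq_right (by linarith)]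
      ring
    · rw [max_eq_left h, min_eq_left (by linarith)]
      ring
  · intro x hx
    simp only [hf, if_neg hx, sub_zero]

/-- truncation from below -/
theorem truncDown_ok (hI : stmtIBP) (hE : stmtExt) (hInt : stmtInt) : stmtTruncDown := by
  classical
  intro b0 V C0 hB S hS hSD β hβ hF hsub w hw K hK hKS hout
  set f : E2 → ℝ := fun x => if x ∈ S then min 0 (b0 x + w x - β x) else 0 with hf
  have hf0 : ∀ x, x ∉ K → f x = 0 := by
    intro x hx
    by_cases hxS : x ∈ S
    · simp only [hf, if_pos hxS]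
      exact min_eq_left (by linarith [hout x hxS hx])
    · simp only [hf, if_neg hxS]
  have hb0L : LocallyLipschitzOn S b0 := (locLip_of_c1 isOpen_D hB.c1).mono hSD
  have hfL : ∃ L : NNReal, LipschitzWith L f := by
    apply hE S K f hS hK hKS hf0
    refine locLip_congr (g := fun x => min 0 (b0 x + w x - β x)) ?_ ?_
    · intro x hx
      simp only [hf, if_pos hx]
    · refine locLip_comp (g := fun y => min 0 y) ?_ ?_
      · exact (LipschitzWith.id.const_min 0).locallyLipschitz
      · exact locLip_sub (locLip_add hb0L (locLip_of_lip hw.1)) (locLip_of_c1 hS hβ)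
  have hw' : IsAdm (fun x => w x - f x) := adm_sub hw hfL hK (hKS.trans hSD) hf0
  have hfn : ∀ x, f x ≤ 0 := by
    intro x
    by_cases hxS : x ∈ S
    · simp only [hf, if_pos hxS]
      exact min_le_left _ _
    · simp only [hf, if_neg hxS, le_refl]
  refine ⟨fun x => w x - f x, hw', ?_, ?_, ?_⟩
  · refine core hI hE hInt hB hS hSD hβ hF hw hw' hK hKS ?_ ?_ (Or.inr ?_) ?_
    · intro x hx
      simp only [hf0 x hx, sub_zero]
    · intro x hx
      have hfx : f x ≠ 0 := by
        intro h
        apply hx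
        simp only [h, sub_zero]
      by_cases hxS : x ∈ S
      · simp only [hf, if_pos hxS] at hfx ⊢
        rcases min_choice 0 (b0 x + w x - β x) with h | h
        · exact absurd h hfx
        · rw [h]
          ring
      · simp only [hf, if_neg hxS, ne_eq, not_true_eq_false] at hfx
    · intro x
      linarith [hfn x]
    · intro x hx
      apply mul_nonneg_of_nonpos_of_nonpos
      · linarith [hsub x hx]
      · have : Real.exp (4 * (b0 x + w x)) ≤ Real.exp (4 * (b0 x + (w x - f x))) := by
          apply Real.exp_le_exp.mpr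
          linarith [hfn x]
        linarith
  · intro x hx
    simp only [hf, if_pos hx]
    rcases le_total 0 (b0 x + w x - β x) with h | h
    · rw [min_eq_left h, max_eq_left (by linarith)]
      ring
    · rw [min_eq_right h, max_eq_right (by linarith)]
      ring
  · intro x hx
    simp only [hf, if_neg hx, sub_zero]

end Pool.Agent.Helper61.PL
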